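import Pool.Agent.Helper84.Kauf.Final
import Pool.Agent.Helper23.KB.Fin

set_option autoImplicit false

/-!
# `ℵ₂`-Aronszajn trees without `ℵ₂`-Kaufmann models

Question Q1 asks whether ZFC proves: if there are no `ℵ₂`-Kaufmann models, then `ℵ₂` has the tree
property.  Here: if the Proper Forcing Axiom holds, then there is a countable transitive model of ZFC
in which there is an `ℵ₂`-Aronszajn tree (so that `ℵ₂` does not have the tree property), but there is
no `ℵ₂`-Kaufmann model.

All definitions about the model are in `Pool/Agent/Helper23/KB/Defs.lean` and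
`Pool/Agent/Helper23/CK/Defs.lean`; the formulas of arithmetic and `PFA` are defined in
`Pool/Agent/Helper84/Kauf/Defs.lean`.
-/

namespace Pool.Agent.Results.MP_e48996_lc.AronszajnWithoutKaufmann

open Pool.Agent.Helper84.Kauf
open Pool.Agent.Helper23.KB (IsCounterexample ctm_of_ro)

/-- there is a condition (of height `0`) -/
theorem exists_cond : Nonempty Cond := by
  have hmin : ∀ ξ : K2, ¬ ξ < wellFounded_lt.min Set.univ Set.univ_nonempty := fun ξ =>
    wellFounded_lt.not_lt_min Set.univ (Set.mem_univ ξ)
  refine ⟨⟨wellFounded_lt.min Set.univ Set.univ_nonempty, {∅}, Set.singleton_nonempty _, ?_, ?_,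
    ?_, ?_⟩⟩
  · rw [Cardinal.mk_singleton]
    exact Cardinal.one_le_aleph0.trans (Cardinal.aleph0_le_aleph 1)
  · rintro X rfl
    exact Set.empty_subset _
  · rintro X rfl Y rfl ξ
    simp
  · intro X _ ξ hξ
    exact (hmin ξ hξ).elim

/-- The Proper Forcing Axiom implies that there is a countable transitive model of ZFC in which there
is an `ℵ₂`-Aronszajn tree, but no `ℵ₂`-Kaufmann model. -/
theorem result : PFA → ∃ M : ZFSet.{0}, IsCounterexample M := by
  intro hP
  obtain ⟨h1, h2, h3⟩ := final hP
  have := exists_cond
  exact ctm_of_ro Cond h1 h2 h3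

end Pool.Agent.Results.MP_e48996_lc.AronszajnWithoutKaufmann
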