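import Pool.Agent.Helper4.KSq.Main
import Pool.Agent.Helper4.WC.FIN

set_option autoImplicit false

/-!
# No `κ`-Kaufmann models: an inner model in which `κ` is weakly compact

For every regular uncountable cardinal `κ`, if there is no `κ`-Kaufmann model (a `κ`-like,
recursively saturated, rather classless model of Peano arithmetic), then there is an inner model
of ZFC in which the partition property `κ → (κ)²₂` holds. The notions about models of arithmetic
are defined in `Pool/Agent/Helper4/KSq/KDefs.lean`, inner models and the partition property in
`Pool/Agent/Helper4/WC/WDefs.lean`.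
-/

open Cardinal

namespace Pool.Agent.Results.MP_e48996_lc.InnerWeaklyCompact

open Pool.Agent.Helper4.KSq Pool.Agent.Helper4.WC in
theorem result {κ : Cardinal.{0}} (hκ : κ.IsRegular) (hu : ℵ₀ < κ)
    (h : ¬ ∃ (A : Type) (M : ArStr A), IsKaufmann κ M) :
    ∃ N : ZFSet.{0} → Prop, IsInnerModel N ∧ PartitionIn N κ.ord :=
  inner_of_not_square hκ hu fun hsq => h (kaufmann_of_square hκ hu hsq)

end Pool.Agent.Results.MP_e48996_lc.InnerWeaklyCompact
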